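import Pool.Agent.H54.G.W751.CV.Stm

/-!
# Part HAD of project CV: Hadamard's inequality for positive semidefinite matrices
(helper349)
-/

set_option autoImplicit false

open Matrix
open scoped ComplexOrder

namespace Pool.Agent.W349.CV

theorem prod_le_mean_pow {P : Type*} [Fintype P] (x : P → ℝ) (hx : ∀ i, 0 ≤ x i) :
    ∏ i, x i ≤ ((∑ i, x i) / Fintype.card P) ^ Fintype.card P := by
  rcases isEmpty_or_nonempty P with h | h
  · simp
  have hN : (0 : ℝ) < Fintype.card P := by exact_mod_cast Fintype.card_pos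
  have h1 := Real.geom_mean_le_arith_mean_weighted (Finset.univ) (fun _ => (1 : ℝ) / Fintype.card P) x
    (fun _ _ => by positivity) (by simp [hN.ne']) (fun i _ => hx i)
  rw [Real.finsetProd_rpow _ _ (fun i _ => hx i)] at h1
  have h2 : (∏ i, x i) = ((∏ i, x i) ^ ((1 : ℝ) / Fintype.card P)) ^ Fintype.card P := by
    rw [← Real.rpow_natCast, ← Real.rpow_mul (Finset.prod_nonneg fun i _ => hx i)]
    rw [one_div, inv_mul_cancel₀ hN.ne', Real.rpow_one]
  rw [h2]
  have h3 : 0 ≤ (∏ i, x i) ^ ((1 : ℝ) / Fintype.card P) :=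
    Real.rpow_nonneg (Finset.prod_nonneg fun i _ => hx i) _
  refine pow_le_pow_left₀ h3 (h1.trans (le_of_eq ?_)) _
  rw [← Finset.mul_sum]
  ring

/-- unit diagonal -/
theorem det_unit {N : ℕ} (A : Matrix (Fin N) (Fin N) ℂ) (hA : A.PosSemidef)
    (h1 : ∀ i, A i i = 1) : A.det.re ≤ 1 := by
  have hH := hA.isHermitian
  have h2 : A.det = ((∏ i, hH.eigenvalues i : ℝ) : ℂ) := by
    rw [hH.det_eq_prod_eigenvalues]
    push_cast
    rfl
  have h3 : A.trace = ((∑ i, hH.eigenvalues i : ℝ) : ℂ) := by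
    rw [hH.trace_eq_sum_eigenvalues]
    push_cast
    rfl
  have h4 : A.trace = (N : ℂ) := by
    unfold Matrix.trace
    simp only [Matrix.diag_apply, h1]
    simp
  have h5 : ∑ i, hH.eigenvalues i = (N : ℝ) := by
    have := h3.symm.trans h4
    exact_mod_cast this
  have h6 := prod_le_mean_pow hH.eigenvalues (fun i => hA.eigenvalues_nonneg i)
  rw [h5, Fintype.card_fin] at h6
  rw [h2, Complex.ofReal_re]
  refine h6.trans ?_
  rcases Nat.eq_zero_or_pos N with h0 | h0
  · subst h0
    simp
  · have : (N : ℝ) ≠ 0 := by exact_mod_cast h0.ne'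
    rw [div_self this, one_pow]

theorem had : Pool.Agent.W751.CV.S_HAD := by
  intro N G hG
  have hd : ∀ i, 0 ≤ G i i := fun i => hG.diag_nonneg
  have hre : ∀ i, 0 ≤ (G i i).re := fun i => (Complex.le_def.1 (hd i)).1
  have him : ∀ i, G i i = (((G i i).re : ℝ) : ℂ) := by
    intro i
    have h1 := (Complex.le_def.1 (hd i)).2
    apply Complex.ext
    · simp
    · simpa using h1.symm
  by_cases h0 : ∃ i, (G i i).re = 0
  · obtain ⟨i, hi⟩ := h0
    have h1 : G i i = 0 := by rw [him i, hi, Complex.ofReal_zero]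
    have h2 : star (Pi.single i (1 : ℂ)) ⬝ᵥ (G *ᵥ Pi.single i (1 : ℂ)) = 0 := by
      rw [Matrix.mulVec_single_one]
      simp [h1]
    have h3 := (hG.dotProduct_mulVec_zero_iff (Pi.single i (1 : ℂ))).1 h2
    have h4 : G.det = 0 := by
      rw [← Matrix.exists_mulVec_eq_zero_iff]
      refine ⟨Pi.single i 1, ?_, h3⟩
      intro h5
      have := congrFun h5 i
      simp at this
    rw [h4, Complex.zero_re]
    exact Finset.prod_nonneg fun i _ => hre i
  · push Not at h0
    have hpos : ∀ i, 0 < (G i i).re := fun i => lt_of_le_of_ne (hre i) (Ne.symm (h0 i))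
    set D : Matrix (Fin N) (Fin N) ℂ :=
      Matrix.diagonal fun i => (((Real.sqrt (G i i).re)⁻¹ : ℝ) : ℂ) with hD
    have hDH : Dᴴ = D := by
      rw [hD, Matrix.diagonal_conjTranspose]
      congr 1
      funext i
      simp
    have hA : (Dᴴ * G * D).PosSemidef := hG.conjTranspose_mul_mul_same D
    rw [hDH] at hA
    have hs : ∀ i, 0 < Real.sqrt (G i i).re := fun i => Real.sqrt_pos.2 (hpos i)
    have hss : ∀ i, Real.sqrt (G i i).re * Real.sqrt (G i i).re = (G i i).re :=
      fun i => Real.mul_self_sqrt (hre i)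
    have h1 : ∀ i, (D * G * D) i i = 1 := by
      intro i
      rw [hD, Matrix.mul_diagonal, Matrix.diagonal_mul, him i, ← Complex.ofReal_mul,
        ← Complex.ofReal_mul]
      have h2 : (Real.sqrt (G i i).re)⁻¹ * (G i i).re * (Real.sqrt (G i i).re)⁻¹ = 1 := by
        nth_rewrite 2 [← hss i]
        have := (hs i).ne'
        field_simp
      have h3 : ((((G i i).re : ℝ) : ℂ)).re = (G i i).re := Complex.ofReal_re _
      rw [h3, h2, Complex.ofReal_one]
    have h2 := det_unit _ hA h1
    set P : ℝ := ∏ i, (Real.sqrt (G i i).re)⁻¹ with hP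
    have hPp : 0 < P := Finset.prod_pos fun i _ => inv_pos.2 (hs i)
    have h3 : D.det = ((P : ℝ) : ℂ) := by
      rw [hD, Matrix.det_diagonal, hP]
      push_cast
      rfl
    rw [Matrix.det_mul, Matrix.det_mul, h3] at h2
    have h4 : ((P : ℂ) * G.det * (P : ℂ)).re = P * P * G.det.re := by
      have : (P : ℂ) * G.det * (P : ℂ) = ((P * P : ℝ) : ℂ) * G.det := by
        push_cast
        ring
      rw [this, Complex.re_ofReal_mul]
    rw [h4] at h2
    have h5 : P * P * ∏ i, (G i i).re = 1 := by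
      rw [hP, ← Finset.prod_mul_distrib, ← Finset.prod_mul_distrib]
      apply Finset.prod_eq_one
      intro i _
      nth_rewrite 3 [← hss i]
      have := (hs i).ne'
      field_simp
    have h6 : P * P * G.det.re ≤ P * P * ∏ i, (G i i).re := by rw [h5]; exact h2
    exact le_of_mul_le_mul_left h6 (mul_pos hPp hPp)

end Pool.Agent.W349.CV
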